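import Pool.Agent.Q7.RZ.Fin

open Set
open Pool.Agent.Q7.RZ

namespace Pool.Agent.Results.MP_7cf8a2_an.BoundaryDimensionsDiffer

/-- **Disproof of Q1.** There is a unimodular irreducible Pisot substitution `σ` on two letters
(`0 ↦ 00000111`, `1 ↦ 00011`) such that `∂ I_σ` has Hausdorff dimension `0`, while `∂ R_σ` has
Hausdorff dimension at least `1/4`. -/
theorem result : ∃ (σ : Fin 2 → List (Fin 2)) (lam : ℝ), IsUnimodularPisot σ lam ∧
    incidence (rev σ) = incidence σ ∧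
    (∃ u, IsFixed σ u) ∧ (∃ v, IsFixed (rev σ) v) ∧
    ∀ u v : ℤ → Fin 2, IsFixed σ u → IsFixed (rev σ) v →
      dimH (frontier (rauzy (incidence σ) lam u ∩ rauzy (incidence σ) lam v)) = 0 ∧
      1 / 4 ≤ dimH (frontier (rauzy (incidence σ) lam u)) := by
  refine ⟨sg, la, pisot_sg, inc_rev, exists_sg, by rw [rev_sg]; exact exists_sr, ?_⟩
  intro u v hu hv
  rw [rev_sg] at hv
  exact ⟨dim_small hu hv, dim_big hu⟩

end Pool.Agent.Results.MP_7cf8a2_an.BoundaryDimensionsDiffer
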